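import Pool.Agent.X240.OR.OneRel

/-!
# One-variable equations in one-relator groups: positive formulas are not harder than one equation

A word over an alphabet `α` is a list of pairs `(a, true)` (the letter `a`) and `(a, false)` (its
inverse); `val f w` is the value of the word `w` in a group if the letters have the values `f`.
`Grp n r` is the one-relator group `⟨x_0, ..., x_(n-1) | r⟩`; `Sol n k r w` says that the equation
`w = 1` in `k` variables with constants has a solution in it, so the single one-variable equation
problem of the group is `Sol n 1 r`. `PosSol n k r φ` says that the positive formula `φ` in `k`
variables, a conjunction of disjunctions of such equations, is satisfied by some elements of the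
group; so systems of equations are the case of disjunctions of length one. `more r` is the word `r`
over the alphabet with one more letter, so `Grp (n + 1) (more r)` is the free product of `Grp n r`
and of the integers, which is again a one-relator group.

1. (All groups `G`.) For every positive formula in conjunctive normal form there is an equation with
the same variables and with one more constant, which depends only on the formula, such that the
equation can be solved in `G * ℤ`, the new constant being a generator of `ℤ`, if and only if the
formula can be satisfied in `G`.
2. (One-relator groups.) A primitive recursive function, which does not depend on `r`, reduces the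
satisfiability of positive formulas in `⟨x | r⟩` to the solvability of single equations in
`⟨x, s | r⟩` in which every letter, in particular the variable, has exponent sum zero.
3. So Q1, the case `k = 1` of the first statement of the list, is equivalent to the decidability of
the positive one-variable formulas with constants in all one-relator groups, for instance of systems
of one-variable equations (simultaneous conjugacy of tuples of elements), and also to its own
special case for equations with all exponent sums zero and for one-relator groups with a generator
that does not occur in the relator.

Proof. For words `u`, `v` with values in `G * ℤ = G * ⟨s⟩` let `u₀`, `v₀` be their images under the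
retraction to `G`. In the wreath product `ℤ ≀ G`, a quotient of `G * ℤ`, the commutator `[u, s]` is
`u₀ δ - δ`, so that a product of commutators `[u, s]` is trivial only if all the `u₀` are trivial:
this treats conjunctions. And if `u` commutes with `v` and with `s v s⁻¹` then
`(u₀ - 1) (v₀ - 1) = 0` in the group ring, so `u₀ = 1` or `v₀ = 1`: this treats disjunctions. For
nested formulas the generators of different levels are the powers `s ^ (3 ^ k)` of a single one, and
the group `G` is replaced by the groups of a tower of quotients of `G * ℤ`, the coefficients by the
integers modulo `3 ^ (k + 1)` and the group by the cosets of the powers of `s`.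
-/

set_option autoImplicit false

namespace Pool.Agent.Results.MP_1ebeae_al.PositiveFormulas

open Pool.Agent.X240.OR

universe u

theorem result :
    -- 1. all groups
    (∀ (A V : Type) (φ : List (List (Word (A ⊕ V)))), ∃ E : Word (Option A ⊕ V),
      ∀ (G : Type u) [Group G] (c : A → G),
        (∃ x : V → G, ∀ cl ∈ φ, ∃ w ∈ cl, val (Sum.elim c x) w = 1) ↔
        ∃ x : V → Monoid.Coprod G (Multiplicative ℤ),
          val (Sum.elim (fun a : Option A =>
            a.elim (Monoid.Coprod.inr (Multiplicative.ofAdd (1 : ℤ)))
              (fun a => Monoid.Coprod.inl (c a))) x) E = 1) ∧
    -- 2. the reduction for one-relator groups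
    (∀ n k : ℕ, ∃ F : List (List (Word (Fin n ⊕ Fin k))) → Word (Fin (n + 1) ⊕ Fin k),
      Primrec F ∧ ∀ (r : Word (Fin n)) (φ : List (List (Word (Fin n ⊕ Fin k)))),
        PosSol n k r φ ↔ Balanced (F φ) ∧ Sol (n + 1) k (more r) (F φ)) ∧
    -- 3. the decision problems
    ∀ k : ℕ, List.TFAE [
      ∀ (n : ℕ) (r : Word (Fin n)), ComputablePred (Sol n k r),
      ∀ (n : ℕ) (r : Word (Fin n)),
        ComputablePred (fun w => Balanced w ∧ Sol (n + 1) k (more r) w),
      ∀ (n : ℕ) (r : Word (Fin n)), ComputablePred (PosSol n k r)] := by
  refine ⟨fun A V φ => ⟨weq (Sum.inl none) (φ.map fun cl => cl.map fun w =>
    rename (Sum.map some id) w), fun G _ c => ?_⟩, fun n k => ⟨red n k, prim_red n k,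
    fun r φ => balanced_red n k r φ⟩, tfae⟩
  exact transfer (G := G) (G' := Hh G) some none c (fun a : Option A =>
    a.elim (Monoid.Coprod.inr (Multiplicative.ofAdd (1 : ℤ)))
      (fun a => Monoid.Coprod.inl (c a))) Monoid.Coprod.inl (MonoidHom.id _)
    (fun _ => rfl) (fun _ => rfl) rfl φ

end Pool.Agent.Results.MP_1ebeae_al.PositiveFormulas
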